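import Pool.Agent.H601.FP.Def

/-!
# S_fresh (helper116)
-/

namespace Pool.Agent.H116.FP

open Pool.Agent.H601.FP

theorem s_fresh : Pool.Agent.H601.FP.S_fresh := by
  intro p _ α V _ _ _ _ γ y hy E hE
  let Φ : (α × (V → ZMod p)) × (Fin γ → ZMod p) → α × (V → ZMod p) :=
    fun q => (q.1.1, Function.extend y q.2 q.1.2)
  have hinj : Set.InjOn Φ (E ×ˢ (Finset.univ : Finset (Fin γ → ZMod p)) :
      Finset ((α × (V → ZMod p)) × (Fin γ → ZMod p))) := by
    rintro ⟨c, v⟩ hq ⟨c', v'⟩ hq' h
    have hc : c ∈ E := (Finset.mem_product.1 (Finset.mem_coe.1 hq)).1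
    have hc' : c' ∈ E := (Finset.mem_product.1 (Finset.mem_coe.1 hq')).1
    have h0 : (c.1, Function.extend y v c.2) = (c'.1, Function.extend y v' c'.2) := h
    have h1 : c.1 = c'.1 := (Prod.mk.inj h0).1
    have h2 : Function.extend y v c.2 = Function.extend y v' c'.2 := (Prod.mk.inj h0).2
    have h3 : v = v' := by
      funext t
      have := congrFun h2 (y t)
      rw [hy.extend_apply, hy.extend_apply] at this
      exact this
    have h4 : c = c' := by
      apply hE c hc c' hc' h1
      intro f hf
      have hf' : ¬ ∃ t, y t = f := fun ⟨t, ht⟩ => hf t ht.symm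
      have := congrFun h2 f
      rw [Function.extend_apply' _ _ _ hf', Function.extend_apply' _ _ _ hf'] at this
      exact this
    rw [h3, h4]
  have h := Finset.card_le_card_of_injOn Φ (fun q _ => Finset.mem_coe.2 (Finset.mem_univ (Φ q))) hinj
  rw [Finset.card_product, Finset.card_univ, Finset.card_univ, Fintype.card_fun, ZMod.card,
    Fintype.card_fin] at h
  exact h

end Pool.Agent.H116.FP
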