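import Pool.Agent.H601.FP.Stm

/-!
# S_mult (helper116)
-/

namespace Pool.Agent.H116.FP

open Pool.Agent.H601.FP Polynomial

theorem natDegree_assoc {p : ℕ} [Fact p.Prime] {x y : Polynomial (ZMod p)} (h : Associated x y) :
    x.natDegree = y.natDegree := Polynomial.natDegree_eq_of_degree_eq (degree_eq_degree_of_associated h)

theorem eq_of_assoc {p : ℕ} [Fact p.Prime] {x y : Polynomial (ZMod p)} (h : Associated x y)
    (hx : x.coeff 0 = 1) (hy : y.coeff 0 = 1) : x = y := by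
  obtain ⟨u, hu⟩ := h
  obtain ⟨r, _, hr⟩ := Polynomial.isUnit_iff.1 u.isUnit
  rw [← hr] at hu
  have h1 := congrArg (fun q => Polynomial.coeff q 0) hu
  simp only [Polynomial.coeff_mul_C, hx, hy, one_mul] at h1
  rw [h1] at hu
  simpa using hu

theorem fact {p : ℕ} [Fact p.Prime] {m₁ m₂ : ℕ} (hm : m₁ ≠ m₂) {x y x' y' : Polynomial (ZMod p)}
    (hx : x ∈ Pr p m₁) (_hy : y ∈ Pr p m₂) (hx' : x' ∈ Pr p m₁) (hy' : y' ∈ Pr p m₂)
    (h : x * y = x' * y') : x = x' ∧ y = y' := by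
  have h1 : x ∣ x' * y' := ⟨y, h.symm⟩
  have h2 : x = x' := by
    rcases hx.1.prime.dvd_or_dvd h1 with h3 | h3
    · exact eq_of_assoc (hx.1.associated_of_dvd hx'.1 h3) hx.2.2 hx'.2.2
    · exfalso
      have h4 := natDegree_assoc (hx.1.associated_of_dvd hy'.1 h3)
      rw [hx.2.1, hy'.2.1] at h4
      exact hm h4
  refine ⟨h2, ?_⟩
  rw [← h2] at h
  exact mul_left_cancel₀ hx.1.ne_zero h

theorem s_mult : Pool.Agent.H601.FP.S_mult := by
  intro p _ n m₁ m₂ hm W hW
  set S : Set (Polynomial (ZMod p) × Polynomial (ZMod p)) :=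
    {z | z.1 ∈ Pr p m₁ ∧ z.2 ∈ Pr p m₂ ∧ Polynomial.X ^ (n + 1) ∣ z.1 * z.2 - W} with hS
  let f : Polynomial (ZMod p) × Polynomial (ZMod p) → (Fin (m₁ + m₂ - n) → ZMod p) :=
    fun z i => (z.1 * z.2 - W).coeff (n + 1 + (i : ℕ))
  have hdeg : ∀ z ∈ S, ∀ k, m₁ + m₂ < k → (z.1 * z.2 - W).coeff k = 0 := by
    intro z hz k hk
    have e1 : (z.1 * z.2).natDegree ≤ m₁ + m₂ := by
      refine Polynomial.natDegree_mul_le.trans ?_
      rw [hz.1.2.1, hz.2.1.2.1]
    rw [Polynomial.coeff_sub, Polynomial.coeff_eq_zero_of_natDegree_lt (by omega),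
      Polynomial.coeff_eq_zero_of_natDegree_lt (by omega), sub_zero]
  have hlow : ∀ z ∈ S, ∀ k, k < n + 1 → (z.1 * z.2 - W).coeff k = 0 := by
    intro z hz k hk
    exact Polynomial.X_pow_dvd_iff.1 hz.2.2 k hk
  have hinj : Set.InjOn f S := by
    intro z hz z' hz' h
    have e1 : z.1 * z.2 - W = z'.1 * z'.2 - W := by
      ext k
      by_cases h1 : k < n + 1
      · rw [hlow z hz k h1, hlow z' hz' k h1]
      · by_cases h2 : m₁ + m₂ < k
        · rw [hdeg z hz k h2, hdeg z' hz' k h2]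
        · have h3 : k - (n + 1) < m₁ + m₂ - n := by omega
          have h4 := congrFun h ⟨k - (n + 1), h3⟩
          have h5 : n + 1 + (k - (n + 1)) = k := by omega
          have h6 : (z.1 * z.2 - W).coeff (n + 1 + (k - (n + 1))) =
            (z'.1 * z'.2 - W).coeff (n + 1 + (k - (n + 1))) := h4
          rw [h5] at h6
          exact h6
    have e2 : z.1 * z.2 = z'.1 * z'.2 := sub_left_injective e1
    obtain ⟨e3, e4⟩ := fact hm hz.1 hz.2.1 hz'.1 hz'.2.1 e2
    exact Prod.ext e3 e4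
  constructor
  · exact Set.Finite.of_injOn (Set.mapsTo_univ f S) hinj Set.finite_univ
  · have h1 := Set.ncard_le_ncard_of_injOn f (fun a _ => Set.mem_univ (f a)) hinj Set.finite_univ
    rw [Set.ncard_univ, Nat.card_eq_fintype_card, Fintype.card_fun, ZMod.card, Fintype.card_fin] at h1
    exact h1

end Pool.Agent.H116.FP
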